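import Pool.Agent.Helper70.ML.St3

/-!
# Project ML, module PWEQ (helper99): the monomial elements of a central extension of `SL_n(F)`
-/

set_option autoImplicit false

namespace Pool.Agent.Helper99.ML

open Pool.Agent.Helper70.ML Pool.Agent.Helper75.MX

section

variable {n : ℕ} {F : Type} [Field F] {E : Type} [Group E]

theorem conj3 (g x y z : E) : g * (x * y * z) * g⁻¹ = (g * x * g⁻¹) * (g * y * g⁻¹) * (g * z * g⁻¹) := by
  group

theorem map_Wr (φ : E →* SLn n F) (X : Fin n → Fin n → F → E) (h : Can φ X) (i j : Fin n) (a : F)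
    (hij : i ≠ j) : φ (Wr X i j a) = tv i j a * tv j i (-a⁻¹) * tv i j a := by
  unfold Wr
  rw [map_mul, map_mul, h.map i j a hij, h.map j i (-a⁻¹) hij.symm]

theorem wmono' (hPMON : StPMON) (φ : E →* SLn n F) (X : Fin n → Fin n → F → E) (h : Can φ X)
    (i j : Fin n) (a : F) (hij : i ≠ j) (ha : a ≠ 0) :
    Mono (φ (Wr X i j a)) (Equiv.swap i j) (wc i j a) := by
  rw [map_Wr φ X h i j a hij]
  exact (hPMON n F).2.2.2.2.2.2.1 i j a hij ha

theorem hmono' (hPMON : StPMON) (φ : E →* SLn n F) (X : Fin n → Fin n → F → E) (h : Can φ X)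
    (i j : Fin n) (a : F) (hij : i ≠ j) (ha : a ≠ 0) :
    Mono (φ (Hr X i j a)) 1 (hc i j a) := by
  have h1 := (hPMON n F).2.2.2.2.2.2.2 i j a hij ha
  unfold Hr
  rw [map_mul, map_inv, map_Wr φ X h i j a hij, map_Wr φ X h i j 1 hij, inv_one]
  exact h1

theorem weqv' (φ : E →* SLn n F) (X : Fin n → Fin n → F → E) (h : Can φ X)
    (g : E) (σ : Equiv.Perm (Fin n)) (c : Fin n → F) (hg : Mono (φ g) σ c) (i j : Fin n) (a : F)
    (hij : i ≠ j) (ha : a ≠ 0) :
    g * Wr X i j a * g⁻¹ = Wr X (σ i) (σ j) (c i * (c j)⁻¹ * a) := by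
  have hi := hg.1 i
  have hj := hg.1 j
  have e1 : c j * (c i)⁻¹ * (-a⁻¹) = -(c i * (c j)⁻¹ * a)⁻¹ := by
    field_simp
  unfold Wr
  rw [conj3, h.eqv g σ c hg i j a hij, h.eqv g σ c hg j i (-a⁻¹) hij.symm, e1]

theorem wflip (hPMON : StPMON) (φ : E →* SLn n F) (X : Fin n → Fin n → F → E) (h : Can φ X)
    (i j : Fin n) (a : F) (hij : i ≠ j) (ha : a ≠ 0) :
    Wr X i j a = Wr X j i (-a⁻¹) := by
  have hw := wmono' hPMON φ X h i j a hij ha
  have hci : wc i j a i = -a⁻¹ := by simp [wc]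
  have hcj : wc i j a j = a := by simp [wc, hij.symm]
  have e1 := h.eqv (Wr X i j a) _ _ hw i j a hij
  have e2 := h.eqv (Wr X i j a) _ _ hw j i (-a⁻¹) hij.symm
  rw [Equiv.swap_apply_left, Equiv.swap_apply_right, hci, hcj] at e1 e2
  have f1 : -a⁻¹ * a⁻¹ * a = -a⁻¹ := by field_simp
  have f2 : a * (-a⁻¹)⁻¹ * -a⁻¹ = a := by field_simp
  rw [f1] at e1
  rw [f2] at e2
  have e3 : Wr X i j a * Wr X i j a * (Wr X i j a)⁻¹ = Wr X i j a := by group
  have e4 := conj3 (Wr X i j a) (X i j a) (X j i (-a⁻¹)) (X i j a)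
  rw [e1, e2] at e4
  have e5 : X i j a * X j i (-a⁻¹) * X i j a = Wr X i j a := rfl
  rw [e5, e3] at e4
  have f3 : -(-a⁻¹)⁻¹ = a := by rw [inv_neg, inv_inv, neg_neg]
  rw [e4]
  unfold Wr
  rw [f3]

theorem winv' (φ : E →* SLn n F) (X : Fin n → Fin n → F → E) (h : Can φ X)
    (i j : Fin n) (a : F) (hij : i ≠ j) :
    Wr X i j (-a) = (Wr X i j a)⁻¹ := by
  have e1 := h.neg i j a hij
  have e2 := h.neg j i (-a⁻¹) hij.symm
  have f1 : -(-a)⁻¹ = -(-a⁻¹) := by rw [inv_neg]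
  unfold Wr
  rw [e1, f1, e2]
  group

end

/-- module PWEQ -/
theorem hPWEQ (hPMON : StPMON) : StPWEQ := by
  intro n F _ E _ _ φ X h
  exact
    { wmono := fun i j a hij ha => wmono' hPMON φ X h i j a hij ha
      hmono := fun i j a hij ha => hmono' hPMON φ X h i j a hij ha
      weqv := fun g σ c hg i j a hij ha => weqv' φ X h g σ c hg i j a hij ha
      wsym := fun i j a hij ha => wflip hPMON φ X h j i a hij.symm ha
      winv := fun i j a hij _ => winv' φ X h i j a hij }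

end Pool.Agent.Helper99.ML
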